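import Mathlib

/-!
# The total number of sides of `k` faces in simple line arrangements

The largest value of `q₁ + ... + q_k - n` over all `k` distinct faces of simple arrangements of `n`
lines in the projective plane is `2 k (k - 1)`. For the lower bound take the four common tangents
of every pair of `k` small discs in general position, and perturb; for the upper bound two distinct
faces have at most four common bounding lines.
-/

set_option autoImplicit false

namespace Pool.Agent.Results.MP_fa8579_co.FaceSides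

open Finset Matrix Filter Topology

/-- The lines `f i ⬝ᵥ x = 0` of the projective plane (whose points are the nonzero vectors `x` up to
scaling) form a simple arrangement: no point lies on three of them. -/
def Simple {ι : Type} (f : ι → Fin 3 → ℝ) : Prop :=
  ∀ i j k, i ≠ j → i ≠ k → j ≠ k → ∀ x, f i ⬝ᵥ x = 0 → f j ⬝ᵥ x = 0 → f k ⬝ᵥ x = 0 → x = 0

/-- Two points off the lines lie in the same face: their sign vectors agree up to a global sign. -/
def SameFace {ι : Type} (f : ι → Fin 3 → ℝ) (p q : Fin 3 → ℝ) : Prop :=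
  (∀ i, 0 < (f i ⬝ᵥ p) * (f i ⬝ᵥ q)) ∨ (∀ i, (f i ⬝ᵥ p) * (f i ⬝ᵥ q) < 0)

/-- The (indices of the) lines that contain an edge of the face of `p`: the line `i` does when it has
a point `x` such that no other line passes through `x` or separates `x` from the face. -/
def sides {ι : Type} (f : ι → Fin 3 → ℝ) (p : Fin 3 → ℝ) : Set ι :=
  {i | ∃ x, f i ⬝ᵥ x = 0 ∧ ∀ j, j ≠ i → 0 < (f j ⬝ᵥ p) * (f j ⬝ᵥ x)}

/-- The values `q₁ + ... + q_k - n` for `k` pairwise distinct faces (given by points `p a` in them),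
a `q₁`-gon, ..., a `q_k`-gon, of simple arrangements of `n ≥ 3` lines. -/
def values (k : ℕ) : Set ℤ :=
  {v | ∃ n : ℕ, 3 ≤ n ∧ ∃ f : Fin n → Fin 3 → ℝ, Simple f ∧ ∃ p : Fin k → Fin 3 → ℝ,
    (∀ a i, f i ⬝ᵥ p a ≠ 0) ∧ (∀ a b, a ≠ b → ¬ SameFace f (p a) (p b)) ∧
    v = (∑ a, ((sides f (p a)).ncard : ℤ)) - n}

/-! ### The upper bound -/

theorem opp {c d X Y X' Y' : ℝ} (hX : 0 < X) (hY : 0 < Y) (hX' : 0 < X') (hY' : 0 < Y')
    (h : 0 < c * X + d * Y) (h' : c * X' + d * Y' < 0) : c * d < 0 := by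
  by_contra hcon
  push Not at hcon
  rcases lt_trichotomy c 0 with hc | hc | hc
  · have hd : d ≤ 0 := by
      by_contra hd
      push Not at hd
      nlinarith
    nlinarith
  · subst hc
    have h1 : 0 < d := by
      by_contra hd
      push Not at hd
      nlinarith
    nlinarith
  · have hd : 0 ≤ d := by
      by_contra hd
      push Not at hd
      nlinarith
    nlinarith

theorem no_three {ι : Type} {f : ι → Fin 3 → ℝ} (hf : Simple f) {p q : Fin 3 → ℝ}
    (hp : ∀ i, f i ⬝ᵥ p ≠ 0) {i j k g : ι} (hij : i ≠ j) (hik : i ≠ k) (hjk : j ≠ k)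
    (hi : i ∈ sides f p ∩ sides f q) (hj : j ∈ sides f p ∩ sides f q)
    (hk : k ∈ sides f p ∩ sides f q) (si : 0 < (f i ⬝ᵥ p) * (f i ⬝ᵥ q))
    (sj : 0 < (f j ⬝ᵥ p) * (f j ⬝ᵥ q)) (sk : 0 < (f k ⬝ᵥ p) * (f k ⬝ᵥ q))
    (sg : (f g ⬝ᵥ p) * (f g ⬝ᵥ q) < 0) : False := by
  have gi : g ≠ i := by rintro rfl; linarith
  have gj : g ≠ j := by rintro rfl; linarith
  have gk : g ≠ k := by rintro rfl; linarith
  -- `f g` is a combination of the other three
  obtain ⟨w, hw⟩ : ∃ w : Fin 3 → ℝ, ∀ x, f g ⬝ᵥ x =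
      w 0 * (f i ⬝ᵥ x) + w 1 * (f j ⬝ᵥ x) + w 2 * (f k ⬝ᵥ x) := by
    set M : Matrix (Fin 3) (Fin 3) ℝ := Matrix.of ![f i, f j, f k] with hM
    have hdet : M.det ≠ 0 := by
      intro h0
      obtain ⟨v, hv, hMv⟩ := Matrix.exists_mulVec_eq_zero_iff.mpr h0
      exact hv (hf i j k hij hik hjk v (congrFun hMv 0) (congrFun hMv 1) (congrFun hMv 2))
    refine ⟨f g ᵥ* M⁻¹, fun x => ?_⟩
    have h1 : f g ⬝ᵥ x = (f g ᵥ* M⁻¹) ⬝ᵥ (M *ᵥ x) := by
      rw [Matrix.dotProduct_mulVec, Matrix.vecMul_vecMul,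
        Matrix.nonsing_inv_mul _ (isUnit_iff_ne_zero.mpr hdet), Matrix.vecMul_one]
    rw [h1]
    conv_lhs => rw [dotProduct, Fin.sum_univ_three]
    rfl
  -- normalize at `p`
  set h : ι → (Fin 3 → ℝ) → ℝ := fun m x => (f m ⬝ᵥ p) * (f m ⬝ᵥ x) with hh
  have rel : ∀ x, h g x = (w 0 * (f g ⬝ᵥ p) / (f i ⬝ᵥ p)) * h i x +
      (w 1 * (f g ⬝ᵥ p) / (f j ⬝ᵥ p)) * h j x + (w 2 * (f g ⬝ᵥ p) / (f k ⬝ᵥ p)) * h k x := by
    intro x
    simp only [hh]
    rw [hw x]
    have h1 := hp i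
    have h2 := hp j
    have h3 := hp k
    field_simp
  set c0 := w 0 * (f g ⬝ᵥ p) / (f i ⬝ᵥ p)
  set c1 := w 1 * (f g ⬝ᵥ p) / (f j ⬝ᵥ p)
  set c2 := w 2 * (f g ⬝ᵥ p) / (f k ⬝ᵥ p)
  have tr : ∀ m, 0 < (f m ⬝ᵥ p) * (f m ⬝ᵥ q) → ∀ x, 0 < (f m ⬝ᵥ q) * (f m ⬝ᵥ x) →
      0 < h m x := by
    intro m h1 x h2
    have h3 : 0 < (f m ⬝ᵥ q) ^ 2 * h m x := by
      have := mul_pos h1 h2
      have e : (f m ⬝ᵥ q) ^ 2 * h m x =
          (f m ⬝ᵥ p) * (f m ⬝ᵥ q) * ((f m ⬝ᵥ q) * (f m ⬝ᵥ x)) := by simp only [hh]; ring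
      rw [e]; exact this
    by_contra hcon
    push Not at hcon
    have := mul_nonpos_of_nonneg_of_nonpos (sq_nonneg (f m ⬝ᵥ q)) hcon
    linarith
  have tr' : ∀ m, (f m ⬝ᵥ p) * (f m ⬝ᵥ q) < 0 → ∀ x, 0 < (f m ⬝ᵥ q) * (f m ⬝ᵥ x) →
      h m x < 0 := by
    intro m h1 x h2
    have h3 : (f m ⬝ᵥ q) ^ 2 * h m x < 0 := by
      have := mul_neg_of_neg_of_pos h1 h2
      have e : (f m ⬝ᵥ q) ^ 2 * h m x =
          (f m ⬝ᵥ p) * (f m ⬝ᵥ q) * ((f m ⬝ᵥ q) * (f m ⬝ᵥ x)) := by simp only [hh]; ring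
      rw [e]; exact this
    by_contra hcon
    push Not at hcon
    have := mul_nonneg (sq_nonneg (f m ⬝ᵥ q)) hcon
    linarith
  have e12 : c1 * c2 < 0 := by
    obtain ⟨⟨x, hx0, hx⟩, ⟨y, hy0, hy⟩⟩ := hi
    have hx0' : h i x = 0 := by simp only [hh]; rw [hx0, mul_zero]
    have hy0' : h i y = 0 := by simp only [hh]; rw [hy0, mul_zero]
    have r1 := rel x
    have r2 := rel y
    rw [hx0', mul_zero, zero_add] at r1
    rw [hy0', mul_zero, zero_add] at r2
    refine opp (hx j hij.symm) (hx k hik.symm) (tr j sj y (hy j hij.symm))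
      (tr k sk y (hy k hik.symm)) (r1 ▸ hx g gi) (r2 ▸ tr' g sg y (hy g gi))
  have e02 : c0 * c2 < 0 := by
    obtain ⟨⟨x, hx0, hx⟩, ⟨y, hy0, hy⟩⟩ := hj
    have hx0' : h j x = 0 := by simp only [hh]; rw [hx0, mul_zero]
    have hy0' : h j y = 0 := by simp only [hh]; rw [hy0, mul_zero]
    have r1 := rel x
    have r2 := rel y
    rw [hx0', mul_zero, add_zero] at r1
    rw [hy0', mul_zero, add_zero] at r2
    refine opp (hx i hij) (hx k hjk.symm) (tr i si y (hy i hij))
      (tr k sk y (hy k hjk.symm)) (r1 ▸ hx g gj) (r2 ▸ tr' g sg y (hy g gj))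
  have e01 : c0 * c1 < 0 := by
    obtain ⟨⟨x, hx0, hx⟩, ⟨y, hy0, hy⟩⟩ := hk
    have hx0' : h k x = 0 := by simp only [hh]; rw [hx0, mul_zero]
    have hy0' : h k y = 0 := by simp only [hh]; rw [hy0, mul_zero]
    have r1 := rel x
    have r2 := rel y
    rw [hx0', mul_zero, add_zero] at r1
    rw [hy0', mul_zero, add_zero] at r2
    refine opp (hx i hik) (hx j hjk) (tr i si y (hy i hik))
      (tr j sj y (hy j hjk)) (r1 ▸ hx g gk) (r2 ▸ tr' g sg y (hy g gk))
  have h1 : 0 < (c0 * c1) * (c0 * c2) := mul_pos_of_neg_of_neg e01 e02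
  have h2 : (c0 * c1) * (c0 * c2) * (c1 * c2) < 0 := mul_neg_of_pos_of_neg h1 e12
  have h3 : (c0 * c1) * (c0 * c2) * (c1 * c2) = (c0 * c1 * c2) ^ 2 := by ring
  rw [h3] at h2
  exact absurd (sq_nonneg _) (not_le.mpr h2)

theorem sides_neg {ι : Type} (f : ι → Fin 3 → ℝ) (p : Fin 3 → ℝ) : sides f (-p) = sides f p := by
  ext i
  constructor
  · rintro ⟨x, h0, hx⟩
    refine ⟨-x, by rw [dotProduct_neg, h0, neg_zero], fun j hj => ?_⟩
    have := hx j hj
    rw [dotProduct_neg] at this ⊢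
    linarith
  · rintro ⟨x, h0, hx⟩
    refine ⟨-x, by rw [dotProduct_neg, h0, neg_zero], fun j hj => ?_⟩
    have := hx j hj
    rw [dotProduct_neg, dotProduct_neg]
    linarith

open scoped Classical in
theorem card_pos_le {ι : Type} [Fintype ι] {f : ι → Fin 3 → ℝ} (hf : Simple f)
    {p q : Fin 3 → ℝ} (hp : ∀ i, f i ⬝ᵥ p ≠ 0) (g : ι)
    (sg : (f g ⬝ᵥ p) * (f g ⬝ᵥ q) < 0) :
    (univ.filter fun i => i ∈ sides f p ∩ sides f q ∧ 0 < (f i ⬝ᵥ p) * (f i ⬝ᵥ q)).card ≤ 2 := by
  by_contra hcon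
  push Not at hcon
  rw [two_lt_card] at hcon
  obtain ⟨i, hi, j, hj, k, hk, hij, hik, hjk⟩ := hcon
  rw [mem_filter] at hi hj hk
  exact no_three hf hp hij hik hjk hi.2.1 hj.2.1 hk.2.1 hi.2.2 hj.2.2 hk.2.2 sg

open scoped Classical in
theorem card_inter_le {ι : Type} [Fintype ι] {f : ι → Fin 3 → ℝ} (hf : Simple f)
    {p q : Fin 3 → ℝ} (hp : ∀ i, f i ⬝ᵥ p ≠ 0) (hq : ∀ i, f i ⬝ᵥ q ≠ 0)
    (h : ¬ SameFace f p q) :
    (univ.filter fun i => i ∈ sides f p ∩ sides f q).card ≤ 4 := by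
  rw [SameFace, not_or] at h
  obtain ⟨h1, h2⟩ := h
  push Not at h1 h2
  obtain ⟨g, hg⟩ := h1
  obtain ⟨g', hg'⟩ := h2
  have sg : (f g ⬝ᵥ p) * (f g ⬝ᵥ q) < 0 := lt_of_le_of_ne hg (mul_ne_zero (hp g) (hq g))
  have sg' : (f g' ⬝ᵥ p) * (f g' ⬝ᵥ (-q)) < 0 := by
    have : 0 < (f g' ⬝ᵥ p) * (f g' ⬝ᵥ q) := lt_of_le_of_ne hg' (mul_ne_zero (hp g') (hq g')).symm
    rw [dotProduct_neg]
    linarith
  have k1 := card_pos_le hf hp g sg
  have k2 := card_pos_le hf hp g' sg'
  rw [sides_neg] at k2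
  have hsub : (univ.filter fun i => i ∈ sides f p ∩ sides f q) ⊆
      (univ.filter fun i => i ∈ sides f p ∩ sides f q ∧ 0 < (f i ⬝ᵥ p) * (f i ⬝ᵥ q)) ∪
      (univ.filter fun i => i ∈ sides f p ∩ sides f q ∧ 0 < (f i ⬝ᵥ p) * (f i ⬝ᵥ (-q))) := by
    intro i hi
    have hi' := (mem_filter.mp hi).2
    rw [mem_union, mem_filter, mem_filter]
    rcases lt_or_gt_of_ne (mul_ne_zero (hp i) (hq i)) with h0 | h0
    · right
      refine ⟨mem_univ _, hi', ?_⟩
      rw [dotProduct_neg]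
      linarith
    · left
      exact ⟨mem_univ _, hi', h0⟩
  have := (card_le_card hsub).trans (card_union_le _ _)
  omega

/-- double counting -/
theorem sum_card_le {k n : ℕ} (S : Fin k → Finset (Fin n))
    (h : ∀ a b, a ≠ b → (S a ∩ S b).card ≤ 4) :
    ∑ a, (S a).card ≤ n + 2 * (k * (k - 1)) := by
  classical
  set A : Fin n → Finset (Fin k) := fun i => univ.filter fun a => i ∈ S a with hA
  have h1 : ∑ a, (S a).card = ∑ i, (A i).card := by
    have e1 : ∀ a, (S a).card = ∑ i, if i ∈ S a then 1 else 0 := fun a => by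
      rw [← card_filter]; congr 1; ext i; simp
    have e2 : ∀ i, (A i).card = ∑ a, if i ∈ S a then 1 else 0 := fun i => card_filter _ _
    simp only [e1, e2]
    rw [sum_comm]
  have h2 : ∑ i, (A i).offDiag.card = ∑ x ∈ (univ : Finset (Fin k)).offDiag,
      (S x.1 ∩ S x.2).card := by
    have e1 : ∀ i, (A i).offDiag.card = ∑ x ∈ (univ : Finset (Fin k)).offDiag,
        if i ∈ S x.1 ∧ i ∈ S x.2 then 1 else 0 := fun i => by
      rw [← card_filter]
      congr 1
      ext x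
      simp only [mem_offDiag, mem_filter, hA, mem_univ, true_and]
      tauto
    have e2 : ∀ x : Fin k × Fin k, (S x.1 ∩ S x.2).card =
        ∑ i, if i ∈ S x.1 ∧ i ∈ S x.2 then 1 else 0 := fun x => by
      rw [← card_filter]
      congr 1
      ext i
      simp
    simp only [e1, e2]
    rw [sum_comm]
  have h3 : ∑ x ∈ (univ : Finset (Fin k)).offDiag, (S x.1 ∩ S x.2).card ≤ 4 * (k * (k - 1)) := by
    have : ∀ x ∈ (univ : Finset (Fin k)).offDiag, (S x.1 ∩ S x.2).card ≤ 4 := fun x hx =>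
      h _ _ (mem_offDiag.mp hx).2.2
    refine (sum_le_card_nsmul _ _ _ this).trans ?_
    rw [offDiag_card, card_univ, Fintype.card_fin, smul_eq_mul, Nat.mul_sub, mul_one]
    omega
  have h4 : ∀ i, 2 * (A i).card ≤ 2 + (A i).offDiag.card := by
    intro i
    rw [offDiag_card]
    generalize (A i).card = m
    rcases m with _ | _ | _ | m
    · omega
    · omega
    · omega
    · have : (m + 1 + 1 + 1) * (m + 1 + 1 + 1) = m * m + 6 * m + 9 := by ring
      omega
  have h5 : ∑ i, 2 * (A i).card ≤ ∑ i : Fin n, (2 + (A i).offDiag.card) :=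
    sum_le_sum fun i _ => h4 i
  rw [← mul_sum, sum_add_distrib, sum_const, card_univ, Fintype.card_fin, smul_eq_mul, ← h1, h2]
    at h5
  omega

theorem upper (k : ℕ) (v : ℤ) (hv : v ∈ values k) : v ≤ 2 * (k * (k - 1) : ℕ) := by
  classical
  obtain ⟨n, -, f, hf, p, hp, hd, rfl⟩ := hv
  have e : ∀ a, (sides f (p a)).ncard = (univ.filter fun i => i ∈ sides f (p a)).card := by
    intro a
    rw [← Set.ncard_coe_finset]
    congr 1
    ext i
    simp
  have h := sum_card_le (fun a => univ.filter fun i => i ∈ sides f (p a)) (by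
    intro a b hab
    have h1 := card_inter_le hf (hp a) (hp b) (hd a b hab)
    refine (card_le_card ?_).trans h1
    intro i hi
    rw [mem_inter, mem_filter, mem_filter] at hi
    exact mem_filter.mpr ⟨mem_univ _, hi.1.2, hi.2.2⟩)
  simp only [e]
  have h' : ((∑ a, (univ.filter fun i => i ∈ sides f (p a)).card : ℕ) : ℤ) ≤
      ((n + 2 * (k * (k - 1)) : ℕ) : ℤ) := by exact_mod_cast h
  push_cast at h' ⊢
  linarith

/-! ### Perturbation to a simple arrangement -/

theorem eventually_det_ne (V F : Matrix (Fin 3) (Fin 3) ℝ) (hV : V.det ≠ 0) :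
    ∀ᶠ t : ℝ in 𝓝[≠] 0, (t • V + F).det ≠ 0 := by
  set Q : Polynomial ℝ := (((Polynomial.X : Polynomial ℝ) • V.map Polynomial.C +
    F.map Polynomial.C)).det with hQ
  have hc : Q.coeff 3 = V.det := by
    have := Polynomial.coeff_det_X_add_C_card V F
    rwa [Fintype.card_fin] at this
  have hQ0 : Q ≠ 0 := by
    intro h
    rw [h, Polynomial.coeff_zero] at hc
    exact hV hc.symm
  have heval : ∀ t : ℝ, Q.eval t = (t • V + F).det := by
    intro t
    have := RingHom.map_det (Polynomial.evalRingHom t)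
      ((Polynomial.X : Polynomial ℝ) • V.map Polynomial.C + F.map Polynomial.C)
    rw [← hQ, Polynomial.coe_evalRingHom] at this
    rw [this]
    congr 1
    ext i j
    simp
    ring
  have hfin : ({t | Q.eval t = 0} \ {0}).Finite :=
    (Q.roots.toFinset.finite_toSet.subset (by
      intro t ht
      simp only [mem_coe, Multiset.mem_toFinset, Polynomial.mem_roots', ne_eq, hQ0,
        not_false_eq_true, true_and]
      exact ht)).subset Set.sdiff_subset
  have hopen : IsOpen ({t | Q.eval t = 0} \ {0})ᶜ := hfin.isClosed.isOpen_compl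
  have h0 : (0 : ℝ) ∈ ({t | Q.eval t = 0} \ {0})ᶜ := by
    intro h
    exact h.2 rfl
  have h1 : ∀ᶠ t : ℝ in 𝓝[≠] 0, t ∈ ({t | Q.eval t = 0} \ {0})ᶜ :=
    mem_nhdsWithin_of_mem_nhds (hopen.mem_nhds h0)
  filter_upwards [h1, self_mem_nhdsWithin] with t ht ht0 hdet
  rw [← heval] at hdet
  exact ht ⟨hdet, ht0⟩

theorem cont_dot (u v y : Fin 3 → ℝ) : Continuous fun t : ℝ => (u + t • v) ⬝ᵥ y := by
  simp only [dotProduct, Fin.sum_univ_three, Pi.add_apply, Pi.smul_apply, smul_eq_mul]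
  fun_prop

theorem cont_dot2 (u v u' v' : Fin 3 → ℝ) :
    Continuous fun t : ℝ => (u + t • v) ⬝ᵥ (u' + t • v') := by
  simp only [dotProduct, Fin.sum_univ_three, Pi.add_apply, Pi.smul_apply, smul_eq_mul]
  fun_prop

theorem perturb {ι κ : Type} [Finite ι] [Finite κ] (F : ι → Fin 3 → ℝ) (P : κ → Fin 3 → ℝ)
    (hP : ∀ a i, F i ⬝ᵥ P a ≠ 0) (hF : ∀ i, F i ≠ 0) (T : κ → ι → Prop)
    (W : κ → ι → Fin 3 → ℝ)
    (hW : ∀ a i, T a i → F i ⬝ᵥ W a i = 0 ∧ ∀ j, j ≠ i → 0 < (F j ⬝ᵥ P a) * (F j ⬝ᵥ W a i)) :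
    ∃ G : ι → Fin 3 → ℝ, Simple G ∧ (∀ a i, 0 < (F i ⬝ᵥ P a) * (G i ⬝ᵥ P a)) ∧
      ∀ a i, T a i → i ∈ sides G (P a) := by
  classical
  have := Fintype.ofFinite ι
  set s : ι → ℝ := fun i => ((Fintype.equivFin ι i : ℕ) : ℝ) with hs
  have hsinj : Function.Injective s := by
    intro i j hij
    simp only [hs, Nat.cast_inj] at hij
    exact (Fintype.equivFin ι).injective (Fin.ext hij)
  set v : ι → Fin 3 → ℝ := fun i => ![1, s i, s i ^ 2] with hv
  set G : ℝ → ι → Fin 3 → ℝ := fun t i => F i + t • v i with hG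
  have E1 : ∀ᶠ t : ℝ in 𝓝[≠] 0, ∀ i j k, i ≠ j → i ≠ k → j ≠ k →
      (t • Matrix.of ![v i, v j, v k] + Matrix.of ![F i, F j, F k]).det ≠ 0 := by
    rw [eventually_all]; intro i
    rw [eventually_all]; intro j
    rw [eventually_all]; intro k
    by_cases h1 : i = j
    · exact Eventually.of_forall fun _ h => absurd h1 h
    by_cases h2 : i = k
    · exact Eventually.of_forall fun _ _ h => absurd h2 h
    by_cases h3 : j = k
    · exact Eventually.of_forall fun _ _ _ h => absurd h3 h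
    have hdet : (Matrix.of ![v i, v j, v k]).det ≠ 0 := by
      have e : Matrix.of ![v i, v j, v k] = Matrix.vandermonde ![s i, s j, s k] := by
        ext a b
        fin_cases a <;> fin_cases b <;> simp [hv, Matrix.vandermonde]
      rw [e, Matrix.det_vandermonde_ne_zero_iff]
      intro a b hab
      fin_cases a <;> fin_cases b <;>
        first
          | rfl
          | (exfalso; simp at hab; first
              | exact h1 (hsinj hab)
              | exact h1 (hsinj hab.symm)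
              | exact h2 (hsinj hab)
              | exact h2 (hsinj hab.symm)
              | exact h3 (hsinj hab)
              | exact h3 (hsinj hab.symm))
    filter_upwards [eventually_det_ne _ (Matrix.of ![F i, F j, F k]) hdet] with t ht _ _ _
    exact ht
  have E2 : ∀ᶠ t : ℝ in 𝓝[≠] 0, ∀ a i, 0 < (F i ⬝ᵥ P a) * (G t i ⬝ᵥ P a) := by
    rw [eventually_all]; intro a
    rw [eventually_all]; intro i
    refine mem_nhdsWithin_of_mem_nhds ?_
    have hc : Continuous fun t : ℝ => (F i ⬝ᵥ P a) * (G t i ⬝ᵥ P a) :=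
      continuous_const.mul (cont_dot _ _ _)
    have h0 : 0 < (F i ⬝ᵥ P a) * (G 0 i ⬝ᵥ P a) := by
      simp only [hG, zero_smul, add_zero]
      exact mul_self_pos.mpr (hP a i)
    exact hc.continuousAt.eventually (lt_mem_nhds h0)
  have E3 : ∀ᶠ t : ℝ in 𝓝[≠] 0, ∀ i, G t i ⬝ᵥ G t i ≠ 0 := by
    rw [eventually_all]; intro i
    refine mem_nhdsWithin_of_mem_nhds ?_
    have hc : Continuous fun t : ℝ => G t i ⬝ᵥ G t i := cont_dot2 _ _ _ _
    have h0 : G 0 i ⬝ᵥ G 0 i ≠ 0 := by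
      simp only [hG, zero_smul, add_zero]
      intro h
      exact hF i (dotProduct_self_eq_zero.mp h)
    exact hc.continuousAt.eventually_ne h0
  have E4 : ∀ᶠ t : ℝ in 𝓝[≠] 0, ∀ a i, T a i → ∀ j, j ≠ i →
      0 < (G t j ⬝ᵥ P a) * (G t j ⬝ᵥ W a i -
        (G t i ⬝ᵥ W a i) / (G t i ⬝ᵥ G t i) * (G t j ⬝ᵥ G t i)) := by
    rw [eventually_all]; intro a
    rw [eventually_all]; intro i
    by_cases hT : T a i
    swap
    · exact Eventually.of_forall fun _ h => absurd h hT
    obtain ⟨w0, w1⟩ := hW a i hT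
    have : ∀ᶠ t : ℝ in 𝓝[≠] 0, ∀ j, j ≠ i →
      0 < (G t j ⬝ᵥ P a) * (G t j ⬝ᵥ W a i -
        (G t i ⬝ᵥ W a i) / (G t i ⬝ᵥ G t i) * (G t j ⬝ᵥ G t i)) := by
      rw [eventually_all]; intro j
      by_cases hj : j = i
      · exact Eventually.of_forall fun _ h => absurd hj h
      have h0 : 0 < (G 0 j ⬝ᵥ P a) * (G 0 j ⬝ᵥ W a i -
          (G 0 i ⬝ᵥ W a i) / (G 0 i ⬝ᵥ G 0 i) * (G 0 j ⬝ᵥ G 0 i)) := by
        simp only [hG, zero_smul, add_zero]
        rw [w0, zero_div, zero_mul, sub_zero]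
        exact w1 j hj
      have hne : G 0 i ⬝ᵥ G 0 i ≠ 0 := by
        simp only [hG, zero_smul, add_zero]
        intro h
        exact hF i (dotProduct_self_eq_zero.mp h)
      have hc : ContinuousAt (fun t : ℝ => (G t j ⬝ᵥ P a) * (G t j ⬝ᵥ W a i -
          (G t i ⬝ᵥ W a i) / (G t i ⬝ᵥ G t i) * (G t j ⬝ᵥ G t i))) 0 := by
        refine (cont_dot _ _ _).continuousAt.mul ((cont_dot _ _ _).continuousAt.sub
          (((cont_dot _ _ _).continuousAt.div (cont_dot2 _ _ _ _).continuousAt hne).mul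
            (cont_dot2 _ _ _ _).continuousAt))
      filter_upwards [mem_nhdsWithin_of_mem_nhds (hc.eventually (lt_mem_nhds h0))] with t ht _
      exact ht
    filter_upwards [this] with t ht _
    exact ht
  obtain ⟨t, t1, t2, t3, t4⟩ := (E1.and (E2.and (E3.and E4))).exists
  refine ⟨G t, ?_, t2, ?_⟩
  · intro i j k hij hik hjk x hi hj hk
    have hM := t1 i j k hij hik hjk
    refine Matrix.eq_zero_of_mulVec_eq_zero hM ?_
    have e : t • Matrix.of ![v i, v j, v k] + Matrix.of ![F i, F j, F k] =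
        Matrix.of ![G t i, G t j, G t k] := by
      ext a b
      fin_cases a <;> simp [hG] <;> ring
    rw [e]
    funext a
    fin_cases a
    · exact hi
    · exact hj
    · exact hk
  · intro a i hT
    refine ⟨W a i - ((G t i ⬝ᵥ W a i) / (G t i ⬝ᵥ G t i)) • G t i, ?_, ?_⟩
    · rw [dotProduct_sub, dotProduct_smul, smul_eq_mul, div_mul_cancel₀ _ (t3 i), sub_self]
    · intro j hj
      rw [dotProduct_sub, dotProduct_smul, smul_eq_mul]
      exact t4 a i hT j hj

/-! ### Common tangents of small discs -/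

/-- index set: a pair of discs, the sign at the first disc, and whether the tangent is inner -/
abbrev Idx (k : ℕ) : Type := {x : Fin k × Fin k // x.1 < x.2} × (Bool × Bool)

variable {k : ℕ}

/-- abscissa of a centre -/
def cx (a : Fin k) : ℝ := ((a : ℕ) : ℝ)

theorem cx_inj {a b : Fin k} (h : cx a = cx b) : a = b := by
  simp only [cx, Nat.cast_inj] at h
  exact Fin.ext h

/-- difference of the abscissas -/
noncomputable def dx (i : Idx k) : ℝ := cx i.1.1.2 - cx i.1.1.1

/-- difference of the ordinates -/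
noncomputable def dy (i : Idx k) : ℝ := cx i.1.1.2 ^ 2 - cx i.1.1.1 ^ 2

theorem dx_pos (i : Idx k) : 0 < dx i := by
  have : ((i.1.1.1 : ℕ) : ℝ) < ((i.1.1.2 : ℕ) : ℝ) := by
    exact_mod_cast i.1.2
  simp only [dx, cx]
  linarith

theorem dy_eq (i : Idx k) : dy i = dx i * (cx i.1.1.1 + cx i.1.1.2) := by
  simp only [dx, dy]; ring

/-- squared distance of the centres -/
noncomputable def D2 (i : Idx k) : ℝ := dx i ^ 2 + dy i ^ 2

theorem D2_pos (i : Idx k) : 0 < D2 i := by
  have := dx_pos i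
  simp only [D2]
  positivity

/-- sign at the first disc -/
def sg (i : Idx k) : ℝ := if i.2.1 then 1 else -1

/-- sign at the first disc for inner tangents, zero for outer tangents -/
def ta (i : Idx k) : ℝ := if i.2.2 then sg i else 0

theorem sg_sq (i : Idx k) : sg i * sg i = 1 := by
  simp only [sg]; split_ifs <;> norm_num

/-- coefficient of the direction of the line of centres in the unit normal -/
noncomputable def ka (i : Idx k) (ε : ℝ) : ℝ := √(1 / D2 i - (2 * ta i * ε / D2 i) ^ 2)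

/-- unit normal, first coordinate -/
noncomputable def nx (i : Idx k) (ε : ℝ) : ℝ := 2 * ta i * ε / D2 i * dx i - ka i ε * dy i

/-- unit normal, second coordinate -/
noncomputable def ny (i : Idx k) (ε : ℝ) : ℝ := 2 * ta i * ε / D2 i * dy i + ka i ε * dx i

/-- the lines -/
noncomputable def F (ε : ℝ) (i : Idx k) : Fin 3 → ℝ :=
  ![nx i ε, ny i ε, -(nx i ε * cx i.1.1.1 + ny i ε * cx i.1.1.1 ^ 2 + sg i * ε)]

/-- the centres -/
noncomputable def P (a : Fin k) : Fin 3 → ℝ := ![cx a, cx a ^ 2, 1]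

/-- the disc `a` is one of the two discs of the pair -/
def Tan (a : Fin k) (i : Idx k) : Prop := a = i.1.1.1 ∨ a = i.1.1.2

/-- the sign of the line at the disc `a` -/
noncomputable def si (a : Fin k) (i : Idx k) : ℝ := if a = i.1.1.1 then -sg i else 2 * ta i - sg i

theorem si_sq (a : Fin k) (i : Idx k) : si a i * si a i = 1 := by
  simp only [si, ta, sg]
  split_ifs <;> norm_num

theorem F_P (ε : ℝ) (i : Idx k) (a : Fin k) : F ε i ⬝ᵥ P a =
    nx i ε * (cx a - cx i.1.1.1) + ny i ε * (cx a ^ 2 - cx i.1.1.1 ^ 2) - sg i * ε := by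
  simp [F, P, dotProduct, Fin.sum_univ_three]
  ring

theorem F_tan (ε : ℝ) (i : Idx k) (a : Fin k) (h : Tan a i) : F ε i ⬝ᵥ P a = si a i * ε := by
  rw [F_P]
  rcases h with h | h
  · rw [si, if_pos h, h]; ring
  · have hne : a ≠ i.1.1.1 := by
      rw [h]; exact (ne_of_lt i.1.2).symm
    rw [si, if_neg hne, h]
    have h1 : cx i.1.1.2 - cx i.1.1.1 = dx i := rfl
    have h2 : cx i.1.1.2 ^ 2 - cx i.1.1.1 ^ 2 = dy i := rfl
    rw [h1, h2, nx, ny]
    have h3 : 2 * ta i * ε / D2 i * D2 i = 2 * ta i * ε := by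
      have := (D2_pos i).ne'
      field_simp
    have h4 : D2 i = dx i ^ 2 + dy i ^ 2 := rfl
    linear_combination h3 + (-(2 * ta i * ε / D2 i)) * h4

/-- the touching point -/
noncomputable def W (ε : ℝ) (a : Fin k) (i : Idx k) : Fin 3 → ℝ :=
  ![cx a - si a i * ε * nx i ε, cx a ^ 2 - si a i * ε * ny i ε, 1]

theorem F_W (ε : ℝ) (i j : Idx k) (a : Fin k) : F ε j ⬝ᵥ W ε a i =
    F ε j ⬝ᵥ P a - si a i * ε * (nx j ε * nx i ε + ny j ε * ny i ε) := by
  simp [F, W, P, dotProduct, Fin.sum_univ_three]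
  ring

theorem ka_sq (i : Idx k) {ε : ℝ} (h : 4 * ε ^ 2 < D2 i) :
    ka i ε ^ 2 = 1 / D2 i - (2 * ta i * ε / D2 i) ^ 2 := by
  have hD := D2_pos i
  rw [ka, Real.sq_sqrt]
  have h1 : (2 * ta i * ε / D2 i) ^ 2 ≤ 1 / D2 i := by
    rw [div_pow, div_le_div_iff₀ (by positivity) hD]
    have h2 : ta i ^ 2 ≤ 1 := by
      simp only [ta, sg]; split_ifs <;> norm_num
    have h3 : (2 * ta i * ε) ^ 2 ≤ 4 * ε ^ 2 := by nlinarith [sq_nonneg ε]
    nlinarith
  linarith

theorem unit (i : Idx k) {ε : ℝ} (h : 4 * ε ^ 2 < D2 i) : nx i ε * nx i ε + ny i ε * ny i ε = 1 := by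
  have hD := (D2_pos i).ne'
  have h1 := ka_sq i h
  have h2 : D2 i = dx i ^ 2 + dy i ^ 2 := rfl
  have e : nx i ε * nx i ε + ny i ε * ny i ε =
      ((2 * ta i * ε / D2 i) ^ 2 + ka i ε ^ 2) * (dx i ^ 2 + dy i ^ 2) := by
    rw [nx, ny]; ring
  rw [e, h1, ← h2]
  field_simp
  ring

theorem cont_ka (i : Idx k) : Continuous fun ε => ka i ε := by
  unfold ka
  exact Real.continuous_sqrt.comp (by fun_prop)

theorem cont_nx (i : Idx k) : Continuous fun ε => nx i ε := by
  have := cont_ka i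
  unfold nx
  fun_prop

theorem cont_ny (i : Idx k) : Continuous fun ε => ny i ε := by
  have := cont_ka i
  unfold ny
  fun_prop

theorem cont_F_P (i : Idx k) (a : Fin k) : Continuous fun ε => F ε i ⬝ᵥ P a := by
  have h1 := cont_nx i
  have h2 := cont_ny i
  simp only [F_P]
  fun_prop

theorem ka_zero_pos (i : Idx k) : 0 < ka i 0 := by
  have := D2_pos i
  simp only [ka, mul_zero, zero_div]
  apply Real.sqrt_pos.mpr
  have e : 1 / D2 i - (0 : ℝ) ^ 2 = 1 / D2 i := by ring
  rw [e]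
  positivity

theorem F_P_zero (i : Idx k) (a : Fin k) (h : ¬ Tan a i) : F 0 i ⬝ᵥ P a ≠ 0 := by
  rw [Tan, not_or] at h
  have e : F 0 i ⬝ᵥ P a = ka i 0 * dx i * ((cx a - cx i.1.1.1) * (cx a - cx i.1.1.2)) := by
    rw [F_P, nx, ny, dy_eq]
    ring
  rw [e]
  have h1 : cx a - cx i.1.1.1 ≠ 0 := fun hh => h.1 (cx_inj (sub_eq_zero.mp hh))
  have h2 : cx a - cx i.1.1.2 ≠ 0 := fun hh => h.2 (cx_inj (sub_eq_zero.mp hh))
  have h3 := ka_zero_pos i
  have h4 := dx_pos i
  exact mul_ne_zero (mul_ne_zero h3.ne' h4.ne') (mul_ne_zero h1 h2)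

theorem lt_one_of_sq {s x : ℝ} (hs : s * s = 1) (hx : x * x < 1) : s * x < 1 := by
  nlinarith [sq_nonneg (s * x - 1), sq_nonneg (s - x)]

/-- tangents of different pairs at a common disc -/
theorem diff_pair (i j : Idx k) (a : Fin k) (hi : Tan a i) (hj : Tan a j) (hne : i.1 ≠ j.1) :
    (nx j 0 * nx i 0 + ny j 0 * ny i 0) * (nx j 0 * nx i 0 + ny j 0 * ny i 0) < 1 := by
  have u1 := unit i (ε := 0) (by have := D2_pos i; simpa using this)
  have u2 := unit j (ε := 0) (by have := D2_pos j; simpa using this)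
  have hdet : nx j 0 * ny i 0 - ny j 0 * nx i 0 ≠ 0 := by
    have e : nx j 0 * ny i 0 - ny j 0 * nx i 0 = ka j 0 * ka i 0 * (dx i * dx j) *
        ((cx i.1.1.1 + cx i.1.1.2) - (cx j.1.1.1 + cx j.1.1.2)) := by
      rw [nx, nx, ny, ny, dy_eq, dy_eq]
      ring
    rw [e]
    have h1 := ka_zero_pos i
    have h2 := ka_zero_pos j
    have h3 := dx_pos i
    have h4 := dx_pos j
    have h5 : (cx i.1.1.1 + cx i.1.1.2) - (cx j.1.1.1 + cx j.1.1.2) ≠ 0 := by
      intro h
      apply hne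
      obtain ⟨⟨⟨A, B⟩, hAB⟩, ti⟩ := i
      obtain ⟨⟨⟨A', B'⟩, hAB'⟩, tj⟩ := j
      simp only [Tan] at hi hj h hAB hAB'
      have key : ∀ x y : Fin k, cx a + cx x - (cx a + cx y) = 0 → x = y := fun x y hh =>
        cx_inj (by linarith)
      rcases hi with rfl | rfl <;> rcases hj with h6 | h6
      · subst h6
        have := key _ _ h
        subst this
        rfl
      · subst h6
        have : B = A' := cx_inj (by linarith)
        subst this
        exact absurd (hAB.trans hAB') (lt_irrefl _)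
      · subst h6
        have : A = B' := cx_inj (by linarith)
        subst this
        exact absurd (hAB.trans hAB') (lt_irrefl _)
      · subst h6
        have : A = A' := cx_inj (by linarith)
        subst this
        rfl
    exact mul_ne_zero (mul_ne_zero (mul_ne_zero h2.ne' h1.ne') (mul_ne_zero h3.ne' h4.ne')) h5
  have := mul_self_pos.mpr hdet
  nlinarith

/-- two tangents of the same pair -/
theorem same_pair (i j : Idx k) (a : Fin k) (hij : j ≠ i) (hp : i.1 = j.1) {ε : ℝ}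
    (hε : 0 < ε) (h : 4 * ε ^ 2 < D2 i) :
    si a j * si a i * (nx j ε * nx i ε + ny j ε * ny i ε) < 1 := by
  obtain ⟨pr, s, t⟩ := i
  obtain ⟨pr', s', t'⟩ := j
  simp only at hp
  subst hp
  have hD := D2_pos (⟨pr, s, t⟩ : Idx k)
  have hDD : D2 (⟨pr, s', t'⟩ : Idx k) = D2 (⟨pr, s, t⟩ : Idx k) := rfl
  have hdx : dx (⟨pr, s', t'⟩ : Idx k) = dx (⟨pr, s, t⟩ : Idx k) := rfl
  have hdy : dy (⟨pr, s', t'⟩ : Idx k) = dy (⟨pr, s, t⟩ : Idx k) := rfl
  have k1 := ka_sq (⟨pr, s, t⟩ : Idx k) h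
  have k2 := ka_sq (⟨pr, s', t'⟩ : Idx k) (hDD ▸ h)
  rw [hDD] at k2
  have hs1 := si_sq a (⟨pr, s, t⟩ : Idx k)
  have hs2 := si_sq a (⟨pr, s', t'⟩ : Idx k)
  have hss : (si a (⟨pr, s', t'⟩ : Idx k) * si a (⟨pr, s, t⟩ : Idx k)) *
      (si a (⟨pr, s', t'⟩ : Idx k) * si a (⟨pr, s, t⟩ : Idx k)) = 1 := by
    calc _ = (si a (⟨pr, s', t'⟩ : Idx k) * si a (⟨pr, s', t'⟩ : Idx k)) *
        (si a (⟨pr, s, t⟩ : Idx k) * si a (⟨pr, s, t⟩ : Idx k)) := by ring
      _ = 1 := by rw [hs1, hs2]; norm_num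
  set D := D2 (⟨pr, s, t⟩ : Idx k) with hDdef
  have hDe : D = dx (⟨pr, s, t⟩ : Idx k) ^ 2 + dy (⟨pr, s, t⟩ : Idx k) ^ 2 := rfl
  have hnn : nx (⟨pr, s', t'⟩ : Idx k) ε * nx (⟨pr, s, t⟩ : Idx k) ε +
      ny (⟨pr, s', t'⟩ : Idx k) ε * ny (⟨pr, s, t⟩ : Idx k) ε =
      4 * ta (⟨pr, s', t'⟩ : Idx k) * ta (⟨pr, s, t⟩ : Idx k) * ε ^ 2 / D +
      ka (⟨pr, s', t'⟩ : Idx k) ε * ka (⟨pr, s, t⟩ : Idx k) ε * D := by
    rw [nx, nx, ny, ny, hDD, hdx, hdy]
    have e1 : 4 * ta (⟨pr, s', t'⟩ : Idx k) * ta (⟨pr, s, t⟩ : Idx k) * ε ^ 2 / D =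
        (2 * ta (⟨pr, s', t'⟩ : Idx k) * ε / D) * (2 * ta (⟨pr, s, t⟩ : Idx k) * ε / D) * D := by
      field_simp
      ring
    rw [e1]
    linear_combination (-((2 * ta (⟨pr, s', t'⟩ : Idx k) * ε / D) *
      (2 * ta (⟨pr, s, t⟩ : Idx k) * ε / D) + ka (⟨pr, s', t'⟩ : Idx k) ε *
      ka (⟨pr, s, t⟩ : Idx k) ε)) * hDe
  have hy0 : 0 < 4 * ε ^ 2 / D := by positivity
  have hy1 : 4 * ε ^ 2 / D < 1 := by rw [div_lt_one hD]; exact h
  have q1 : ∀ τ : ℝ, τ ^ 2 = 1 → (1 / D - (2 * τ * ε / D) ^ 2) * D = 1 - 4 * ε ^ 2 / D := by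
    intro τ hτ
    field_simp
    linear_combination (-4 * ε ^ 2) * hτ
  have hsg : ∀ s t : Bool, sg (⟨pr, s, t⟩ : Idx k) ^ 2 = 1 := by
    intro s t
    rw [pow_two]; exact sg_sq _
  rw [hnn]
  cases t with
  | false =>
    have t1 : ta (⟨pr, s, false⟩ : Idx k) = 0 := by simp [ta]
    cases t' with
    | false =>
      have t2 : ta (⟨pr, s', false⟩ : Idx k) = 0 := by simp [ta]
      have hk : ka (⟨pr, s', false⟩ : Idx k) ε = ka (⟨pr, s, false⟩ : Idx k) ε := by
        simp only [ka, t1, t2, hDD]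
        rfl
      have hsne : s' ≠ s := fun hh => hij (by rw [hh])
      have hprod : si a (⟨pr, s', false⟩ : Idx k) * si a (⟨pr, s, false⟩ : Idx k) = -1 := by
        simp only [si, t1, t2]
        cases s <;> cases s' <;> simp_all [sg]
      rw [t1, t2, hk, hprod]
      rw [t1] at k1
      have : ka (⟨pr, s, false⟩ : Idx k) ε * ka (⟨pr, s, false⟩ : Idx k) ε * D = 1 := by
        rw [← pow_two, k1]
        field_simp
        ring
      rw [this]
      norm_num
    | true =>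
      refine lt_one_of_sq hss ?_
      have t2 : ta (⟨pr, s', true⟩ : Idx k) = sg (⟨pr, s', true⟩ : Idx k) := by simp [ta]
      rw [t1]
      rw [t1] at k1
      rw [t2] at k2
      have e : ka (⟨pr, s', true⟩ : Idx k) ε * ka (⟨pr, s, false⟩ : Idx k) ε * D *
          (ka (⟨pr, s', true⟩ : Idx k) ε * ka (⟨pr, s, false⟩ : Idx k) ε * D) =
          (ka (⟨pr, s', true⟩ : Idx k) ε ^ 2 * D) * (ka (⟨pr, s, false⟩ : Idx k) ε ^ 2 * D) := by
        ring
      have e1 : ka (⟨pr, s, false⟩ : Idx k) ε ^ 2 * D = 1 := by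
        rw [k1]; field_simp; ring
      have e2 : ka (⟨pr, s', true⟩ : Idx k) ε ^ 2 * D = 1 - 4 * ε ^ 2 / D := by
        rw [k2]; exact q1 _ (hsg _ _)
      simp only [mul_zero, zero_mul, zero_div, zero_add]
      rw [e, e1, e2]
      linarith
  | true =>
    have t1 : ta (⟨pr, s, true⟩ : Idx k) = sg (⟨pr, s, true⟩ : Idx k) := by simp [ta]
    cases t' with
    | false =>
      refine lt_one_of_sq hss ?_
      have t2 : ta (⟨pr, s', false⟩ : Idx k) = 0 := by simp [ta]
      rw [t2]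
      rw [t1] at k1
      rw [t2] at k2
      have e : ka (⟨pr, s', false⟩ : Idx k) ε * ka (⟨pr, s, true⟩ : Idx k) ε * D *
          (ka (⟨pr, s', false⟩ : Idx k) ε * ka (⟨pr, s, true⟩ : Idx k) ε * D) =
          (ka (⟨pr, s', false⟩ : Idx k) ε ^ 2 * D) * (ka (⟨pr, s, true⟩ : Idx k) ε ^ 2 * D) := by
        ring
      have e1 : ka (⟨pr, s', false⟩ : Idx k) ε ^ 2 * D = 1 := by
        rw [k2]; field_simp; ring
      have e2 : ka (⟨pr, s, true⟩ : Idx k) ε ^ 2 * D = 1 - 4 * ε ^ 2 / D := by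
        rw [k1]; exact q1 _ (hsg _ _)
      simp only [mul_zero, zero_mul, zero_div, zero_add]
      rw [e, e1, e2]
      linarith
    | true =>
      refine lt_one_of_sq hss ?_
      have t2 : ta (⟨pr, s', true⟩ : Idx k) = sg (⟨pr, s', true⟩ : Idx k) := by simp [ta]
      have hsne : s' ≠ s := fun hh => hij (by rw [hh])
      have hsgp : sg (⟨pr, s', true⟩ : Idx k) * sg (⟨pr, s, true⟩ : Idx k) = -1 := by
        cases s <;> cases s' <;> simp_all [sg]
      have hsgn : sg (⟨pr, s', true⟩ : Idx k) = - sg (⟨pr, s, true⟩ : Idx k) := by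
        cases s <;> cases s' <;> simp_all [sg]
      have hk : ka (⟨pr, s', true⟩ : Idx k) ε = ka (⟨pr, s, true⟩ : Idx k) ε := by
        simp only [ka, t1, t2, hDD, hsgn]
        congr 1
        ring
      rw [hk, t1, t2]
      rw [t1] at k1
      have e2 : ka (⟨pr, s, true⟩ : Idx k) ε * ka (⟨pr, s, true⟩ : Idx k) ε * D =
          1 - 4 * ε ^ 2 / D := by
        rw [← pow_two, k1]; exact q1 _ (hsg _ _)
      have e3 : 4 * sg (⟨pr, s', true⟩ : Idx k) * sg (⟨pr, s, true⟩ : Idx k) * ε ^ 2 / D =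
          -(4 * ε ^ 2 / D) := by
        rw [mul_assoc 4, hsgp]; ring
      rw [e2, e3]
      nlinarith

theorem si_ne_zero (a : Fin k) (i : Idx k) : si a i ≠ 0 := by
  intro h
  have := si_sq a i
  rw [h] at this
  norm_num at this

theorem base (k : ℕ) : ∃ ε : ℝ, 0 < ε ∧ (∀ i : Idx k, 4 * ε ^ 2 < D2 i) ∧
    (∀ (a : Fin k) (i : Idx k), F ε i ⬝ᵥ P a ≠ 0) ∧
    ∀ (a : Fin k) (i : Idx k), Tan a i → ∀ j, j ≠ i → 0 < (F ε j ⬝ᵥ P a) * (F ε j ⬝ᵥ W ε a i) := by
  have E1 : ∀ᶠ ε : ℝ in 𝓝[>] 0, ∀ i : Idx k, 4 * ε ^ 2 < D2 i := by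
    rw [eventually_all]; intro i
    refine mem_nhdsWithin_of_mem_nhds ?_
    have hc : Continuous fun ε : ℝ => 4 * ε ^ 2 := by fun_prop
    have h0 : 4 * (0 : ℝ) ^ 2 < D2 i := by have := D2_pos i; simpa using this
    exact hc.continuousAt.eventually (gt_mem_nhds h0)
  have E2 : ∀ᶠ ε : ℝ in 𝓝[>] 0, ∀ (a : Fin k) (i : Idx k), F ε i ⬝ᵥ P a ≠ 0 := by
    rw [eventually_all]; intro a
    rw [eventually_all]; intro i
    by_cases ha : Tan a i
    · filter_upwards [self_mem_nhdsWithin] with ε hε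
      rw [F_tan ε i a ha]
      exact mul_ne_zero (si_ne_zero a i) (ne_of_gt hε)
    · exact mem_nhdsWithin_of_mem_nhds
        ((cont_F_P i a).continuousAt.eventually_ne (F_P_zero i a ha))
  have E3 : ∀ᶠ ε : ℝ in 𝓝[>] 0, ∀ (a : Fin k) (i : Idx k), Tan a i → ∀ j, j ≠ i →
      0 < (F ε j ⬝ᵥ P a) * (F ε j ⬝ᵥ W ε a i) := by
    rw [eventually_all]; intro a
    rw [eventually_all]; intro i
    by_cases hi : Tan a i
    swap
    · exact Eventually.of_forall fun _ h => absurd h hi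
    have : ∀ᶠ ε : ℝ in 𝓝[>] 0, ∀ j, j ≠ i → 0 < (F ε j ⬝ᵥ P a) * (F ε j ⬝ᵥ W ε a i) := by
      rw [eventually_all]; intro j
      by_cases hji : j = i
      · exact Eventually.of_forall fun _ h => absurd hji h
      have hnc : Continuous fun ε : ℝ => nx j ε * nx i ε + ny j ε * ny i ε :=
        ((cont_nx j).mul (cont_nx i)).add ((cont_ny j).mul (cont_ny i))
      by_cases hj : Tan a j
      · -- both tangent to the disc `a`
        have key : ∀ᶠ ε : ℝ in 𝓝[>] 0,
            si a j * si a i * (nx j ε * nx i ε + ny j ε * ny i ε) < 1 := by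
          by_cases hp : i.1 = j.1
          · filter_upwards [E1, self_mem_nhdsWithin] with ε h1 h2
            exact same_pair i j a hji hp h2 (h1 i)
          · have h0 : si a j * si a i * (nx j 0 * nx i 0 + ny j 0 * ny i 0) < 1 := by
              refine lt_one_of_sq ?_ (diff_pair i j a hi hj hp)
              have hs1 := si_sq a i
              have hs2 := si_sq a j
              calc si a j * si a i * (si a j * si a i) = (si a j * si a j) * (si a i * si a i) := by
                    ring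
                _ = 1 := by rw [hs1, hs2]; norm_num
            have hc : Continuous fun ε : ℝ =>
                si a j * si a i * (nx j ε * nx i ε + ny j ε * ny i ε) := continuous_const.mul hnc
            exact mem_nhdsWithin_of_mem_nhds (hc.continuousAt.eventually (gt_mem_nhds h0))
        filter_upwards [key, self_mem_nhdsWithin] with ε h1 h2 _
        have h2' : 0 < ε := h2
        rw [F_W, F_tan ε j a hj]
        have e : si a j * ε * (si a j * ε - si a i * ε * (nx j ε * nx i ε + ny j ε * ny i ε)) =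
            ε ^ 2 * (si a j * si a j - si a j * si a i * (nx j ε * nx i ε + ny j ε * ny i ε)) := by
          ring
        rw [e, si_sq]
        exact mul_pos (by positivity) (by linarith)
      · have hc : Continuous fun ε : ℝ => (F ε j ⬝ᵥ P a) * (F ε j ⬝ᵥ W ε a i) := by
          simp only [F_W]
          exact (cont_F_P j a).mul ((cont_F_P j a).sub
            ((continuous_const.mul continuous_id).mul hnc))
        have h0 : 0 < (F 0 j ⬝ᵥ P a) * (F 0 j ⬝ᵥ W 0 a i) := by
          rw [F_W, mul_zero, zero_mul, sub_zero]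
          exact mul_self_pos.mpr (F_P_zero j a hj)
        filter_upwards [mem_nhdsWithin_of_mem_nhds
          (hc.continuousAt.eventually (lt_mem_nhds h0))] with ε h _
        exact h
    filter_upwards [this] with ε h _
    exact h
  obtain ⟨ε, ⟨h1, h2, h3⟩, h4⟩ := ((E1.and (E2.and E3)).and self_mem_nhdsWithin).exists
  exact ⟨ε, h4, h1, h2, h3⟩

theorem card_idx (k : ℕ) : Fintype.card (Idx k) = 2 * (k * (k - 1)) := by
  have h1 : Fintype.card {x : Fin k × Fin k // x.1 < x.2} * 2 = k * (k - 1) := by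
    have e1 : Fintype.card {x : Fin k × Fin k // x.1 < x.2} =
        (univ.filter fun x : Fin k × Fin k => x.1 < x.2).card := Fintype.card_subtype _
    have e2 : (univ.filter fun x : Fin k × Fin k => x.1 < x.2).card =
        (univ.filter fun x : Fin k × Fin k => x.2 < x.1).card := by
      refine card_bij (fun x _ => (x.2, x.1)) ?_ ?_ ?_
      · intro x hx; rw [mem_filter] at hx ⊢; exact ⟨mem_univ _, hx.2⟩
      · rintro ⟨a, b⟩ _ ⟨c, d⟩ _ h
        simp only [Prod.mk.injEq] at h ⊢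
        exact ⟨h.2, h.1⟩
      · rintro ⟨a, b⟩ h
        exact ⟨(b, a), by rw [mem_filter] at h ⊢; exact ⟨mem_univ _, h.2⟩, rfl⟩
    have e3 : (univ : Finset (Fin k)).offDiag = (univ.filter fun x : Fin k × Fin k => x.1 < x.2) ∪
        (univ.filter fun x : Fin k × Fin k => x.2 < x.1) := by
      ext x
      simp only [mem_offDiag, mem_univ, true_and, mem_union, mem_filter]
      exact lt_or_lt_iff_ne.symm
    have e4 : Disjoint (univ.filter fun x : Fin k × Fin k => x.1 < x.2)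
        (univ.filter fun x : Fin k × Fin k => x.2 < x.1) := by
      rw [disjoint_left]
      intro x hx hx'
      exact lt_asymm (mem_filter.mp hx).2 (mem_filter.mp hx').2
    have e5 : (univ : Finset (Fin k)).offDiag.card = k * (k - 1) := by
      rw [offDiag_card, card_univ, Fintype.card_fin, Nat.mul_sub, mul_one]
    rw [e3, card_union_of_disjoint e4] at e5
    omega
  rw [Fintype.card_prod, Fintype.card_prod, Fintype.card_bool]
  omega

theorem sides_comp {ι κ : Type} (e : κ ≃ ι) (f : ι → Fin 3 → ℝ) (p : Fin 3 → ℝ) :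
    sides (fun x => f (e x)) p = e ⁻¹' sides f p := by
  ext x
  constructor
  · rintro ⟨y, h0, h1⟩
    refine ⟨y, h0, fun j hj => ?_⟩
    have := h1 (e.symm j) (fun hh => hj (by rw [← hh, e.apply_symm_apply]))
    simpa only [e.apply_symm_apply] using this
  · rintro ⟨y, h0, h1⟩
    exact ⟨y, h0, fun j hj => h1 (e j) (fun hh => hj (e.injective hh))⟩

theorem lower_two {k : ℕ} (hk : 2 ≤ k) : (2 * (k * (k - 1) : ℕ) : ℤ) ∈ values k := by
  classical
  obtain ⟨ε, hε, hD, hne, hT⟩ := base k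
  obtain ⟨G, hG, hsign, hsides⟩ := perturb (F ε) (P (k := k)) hne (by
      intro i h
      have := hne i.1.1.1 i
      rw [h, zero_dotProduct] at this
      exact this rfl) Tan (W ε) (by
      intro a i hi
      refine ⟨?_, hT a i hi⟩
      rw [F_W, F_tan ε i a hi, unit i (hD i)]
      ring)
  have hGne : ∀ (a : Fin k) (i : Idx k), G i ⬝ᵥ P a ≠ 0 := by
    intro a i h
    have := hsign a i
    rw [h, mul_zero] at this
    exact lt_irrefl _ this
  -- the faces are different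
  have hdiff : ∀ a b : Fin k, a ≠ b → ¬ SameFace G (P a) (P b) := by
    have key : ∀ a b : Fin k, a < b → ¬ SameFace G (P a) (P b) := by
      intro a b hab h
      have v1 : ∀ i : Idx k, i.1 = ⟨(a, b), hab⟩ →
          0 < (F ε i ⬝ᵥ P a) * (F ε i ⬝ᵥ P b) * ((G i ⬝ᵥ P a) * (G i ⬝ᵥ P b)) := by
        intro i _
        have := mul_pos (hsign a i) (hsign b i)
        linarith [this, mul_comm (F ε i ⬝ᵥ P a * G i ⬝ᵥ P a) (F ε i ⬝ᵥ P b * G i ⬝ᵥ P b),
          show (F ε i ⬝ᵥ P a * G i ⬝ᵥ P a) * (F ε i ⬝ᵥ P b * G i ⬝ᵥ P b) =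
            (F ε i ⬝ᵥ P a) * (F ε i ⬝ᵥ P b) * ((G i ⬝ᵥ P a) * (G i ⬝ᵥ P b)) by ring]
      have w : ∀ i : Idx k, i.1 = ⟨(a, b), hab⟩ → (F ε i ⬝ᵥ P a) * (F ε i ⬝ᵥ P b) =
          (-sg i) * (2 * ta i - sg i) * ε ^ 2 := by
        intro i hi
        have ha : a = i.1.1.1 := by rw [hi]
        have hb : b = i.1.1.2 := by rw [hi]
        have hba : b ≠ i.1.1.1 := by rw [← ha]; exact (ne_of_lt hab).symm
        rw [F_tan ε i a (Or.inl ha), F_tan ε i b (Or.inr hb), si, si, if_pos ha, if_neg hba]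
        ring
      have p1 := v1 (⟨⟨(a, b), hab⟩, true, false⟩ : Idx k) rfl
      have p2 := v1 (⟨⟨(a, b), hab⟩, true, true⟩ : Idx k) rfl
      rw [w _ rfl] at p1 p2
      have q1 : (-sg (⟨⟨(a, b), hab⟩, true, false⟩ : Idx k)) *
          (2 * ta (⟨⟨(a, b), hab⟩, true, false⟩ : Idx k) -
            sg (⟨⟨(a, b), hab⟩, true, false⟩ : Idx k)) * ε ^ 2 = ε ^ 2 := by
        simp [sg, ta]
      have q2 : (-sg (⟨⟨(a, b), hab⟩, true, true⟩ : Idx k)) *
          (2 * ta (⟨⟨(a, b), hab⟩, true, true⟩ : Idx k) -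
            sg (⟨⟨(a, b), hab⟩, true, true⟩ : Idx k)) * ε ^ 2 = -ε ^ 2 := by
        simp [sg, ta]
        ring
      rw [q1] at p1
      rw [q2] at p2
      have hε2 : 0 < ε ^ 2 := by positivity
      rcases h with h | h
      · have := h (⟨⟨(a, b), hab⟩, true, true⟩ : Idx k)
        nlinarith
      · have := h (⟨⟨(a, b), hab⟩, true, false⟩ : Idx k)
        nlinarith
    intro a b hab h
    rcases lt_or_gt_of_ne hab with h1 | h1
    · exact key a b h1 h
    · refine key b a h1 ?_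
      rcases h with h | h
      · exact Or.inl fun i => by rw [mul_comm]; exact h i
      · exact Or.inr fun i => by rw [mul_comm]; exact h i
  set n := 2 * (k * (k - 1)) with hn
  have e : Fin n ≃ Idx k := (Fintype.equivFinOfCardEq (card_idx k)).symm
  have hn3 : 3 ≤ n := by
    obtain ⟨m, rfl⟩ : ∃ m, k = m + 2 := ⟨k - 2, by omega⟩
    have : (m + 2) * (m + 2 - 1) = m * m + 3 * m + 2 := by
      rw [show m + 2 - 1 = m + 1 by omega]; ring
    omega
  have hmem : ((∑ a : Fin k, ((sides (fun x => G (e x)) (P a)).ncard : ℤ)) - n) ∈ values k := by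
    refine ⟨n, hn3, fun x => G (e x), ?_, P, fun a i => hGne a (e i), ?_, rfl⟩
    · intro i j l hij hil hjl x
      exact hG (e i) (e j) (e l) (fun h => hij (e.injective h)) (fun h => hil (e.injective h))
        (fun h => hjl (e.injective h)) x
    · intro a b hab h
      refine hdiff a b hab ?_
      rcases h with h | h
      · exact Or.inl fun i => by simpa only [e.apply_symm_apply] using h (e.symm i)
      · exact Or.inr fun i => by simpa only [e.apply_symm_apply] using h (e.symm i)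
  have hup := upper k _ hmem
  -- the number of sides
  have hcount : (2 * n : ℕ) ≤ ∑ a : Fin k, (sides (fun x => G (e x)) (P a)).ncard := by
    have h1 : ∀ a : Fin k, (univ.filter fun x : Fin n => Tan a (e x)).card ≤
        (sides (fun x => G (e x)) (P a)).ncard := by
      intro a
      rw [← Set.ncard_coe_finset]
      refine Set.ncard_le_ncard ?_ (Set.toFinite _)
      intro x hx
      rw [mem_coe, mem_filter] at hx
      rw [sides_comp]
      exact hsides a (e x) hx.2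
    refine le_trans ?_ (sum_le_sum fun a _ => h1 a)
    have e1 : ∀ a : Fin k, (univ.filter fun x : Fin n => Tan a (e x)).card =
        ∑ x : Fin n, if Tan a (e x) then 1 else 0 := fun a => card_filter _ _
    simp only [e1]
    rw [sum_comm]
    have e2 : ∀ x : Fin n, (∑ a : Fin k, if Tan a (e x) then 1 else 0) = 2 := by
      intro x
      rw [← card_filter]
      have : (univ.filter fun a : Fin k => Tan a (e x)) = {(e x).1.1.1, (e x).1.1.2} := by
        ext a
        constructor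
        · intro h
          have h' : Tan a (e x) := (mem_filter.mp h).2
          simpa [Tan] using h'
        · intro h
          refine mem_filter.mpr ⟨mem_univ _, ?_⟩
          simpa [Tan] using h
      rw [this, card_pair (ne_of_lt (e x).1.2)]
    simp only [e2, sum_const, card_univ, Fintype.card_fin, smul_eq_mul]
    omega
  have hcount' : (2 * n : ℤ) ≤ ∑ a : Fin k, ((sides (fun x => G (e x)) (P a)).ncard : ℤ) := by
    exact_mod_cast hcount
  have hval : ((∑ a : Fin k, ((sides (fun x => G (e x)) (P a)).ncard : ℤ)) - n) =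
      (2 * (k * (k - 1) : ℕ) : ℤ) := by
    apply le_antisymm hup
    have : (n : ℤ) = 2 * (k * (k - 1) : ℕ) := by rw [hn]; push_cast; ring
    linarith
  rw [← hval]
  exact hmem

theorem fin3_cover : ∀ i j k : Fin 3, i ≠ j → i ≠ k → j ≠ k → ∀ l, l = i ∨ l = j ∨ l = k := by
  decide

theorem lower_one : (0 : ℤ) ∈ values 1 := by
  have hdot : ∀ (i : Fin 3) (x : Fin 3 → ℝ), (Pi.single i (1 : ℝ) : Fin 3 → ℝ) ⬝ᵥ x = x i := by
    intro i x
    rw [single_dotProduct, one_mul]
  have hs : sides (fun i : Fin 3 => (Pi.single i (1 : ℝ) : Fin 3 → ℝ)) (fun _ => 1) = Set.univ := by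
    rw [Set.eq_univ_iff_forall]
    intro i
    refine ⟨fun j => if j = i then 0 else 1, ?_, ?_⟩
    · rw [hdot, if_pos rfl]
    · intro j hj
      rw [hdot, hdot, if_neg hj]
      norm_num
  refine ⟨3, le_refl _, fun i => Pi.single i 1, ?_, fun _ _ => 1, ?_, ?_, ?_⟩
  · intro i j k hij hik hjk x hi hj hk
    rw [hdot] at hi hj hk
    funext l
    rcases fin3_cover i j k hij hik hjk l with rfl | rfl | rfl
    · exact hi
    · exact hj
    · exact hk
  · intro a i
    rw [hdot]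
    norm_num
  · intro a b hab
    exact absurd (Subsingleton.elim a b) hab
  · simp only [hs, Set.ncard_univ, Nat.card_eq_fintype_card, Fintype.card_fin]
    simp

/-- **The total number of sides of `k` faces.** For every `k ≥ 1` the largest value of
`q₁ + ... + q_k - n`, over all simple arrangements of `n` lines in the projective plane and all
choices of `k` pairwise distinct faces, a `q₁`-gon, ..., a `q_k`-gon, is `2 k (k - 1)`. -/
theorem result (k : ℕ) (hk : 1 ≤ k) : IsGreatest (values k) (2 * k * (k - 1)) := by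
  have e : (2 * k * (k - 1) : ℤ) = 2 * (k * (k - 1) : ℕ) := by
    rw [Nat.cast_mul, Nat.cast_sub hk]
    push_cast
    ring
  rw [e]
  refine ⟨?_, fun v hv => upper k v hv⟩
  rcases Nat.lt_or_ge k 2 with h | h
  · have : k = 1 := by omega
    subst this
    exact lower_one
  · exact lower_two h

end Pool.Agent.Results.MP_fa8579_co.FaceSides
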